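import Pool.Agent.K7.H42.SD.OrdAlg

set_option autoImplicit false

namespace Pool.Agent.K7.H89.SD

open Pool.Agent.NPC Pool.Agent.K7.H42.SD

variable {α : Type} [TEnc α]

theorem padj {L : α → List (List ℕ)} {i j : α → ℕ} (hL : NPC.Poly L) (hi : NPC.Poly i) (hj : NPC.Poly j) :
    NPC.Poly (fun a => adjb (L a) (i a) (j a)) := by
  unfold adjb
  exact NPC.Poly.and (NPC.Poly.and (NPC.Poly.decide_lt hi (NPC.Poly.length hL)) (NPC.Poly.decide_lt hj (NPC.Poly.length hL)))
    (NPC.Poly.and (NPC.Poly.not (NPC.Poly.decide_eq hi hj))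
      (NPC.Poly.or (NPC.Poly.decide_mem hj (NPC.Poly.getD hL hi (NPC.Poly.const [])))
        (NPC.Poly.decide_mem hi (NPC.Poly.getD hL hj (NPC.Poly.const [])))))

theorem ppairs {n : α → ℕ} (hn : UPoly n) : NPC.Poly (fun a => pairs (n a)) := by
  unfold pairs
  refine NPC.Poly.flatMap (F := fun a i => (List.range (n a)).map (fun j => (i, j))) hn.range ?_
  exact NPC.Poly.map (F := fun (p : α × ℕ) j => (p.2, j)) (hn.comp (NPC.Poly.fst NPC.Poly.id)).range
    (NPC.Poly.pair (NPC.Poly.snd (NPC.Poly.fst NPC.Poly.id)) (NPC.Poly.snd NPC.Poly.id))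

theorem pimpb {L : α → List (List ℕ)} {p q : α → ℕ × ℕ} (hL : NPC.Poly L) (hp : NPC.Poly p)
    (hq : NPC.Poly q) : NPC.Poly (fun a => impb (L a) (p a) (q a)) := by
  unfold impb
  exact NPC.Poly.and (NPC.Poly.and (padj hL (NPC.Poly.fst hp) (NPC.Poly.snd hq)) (padj hL (NPC.Poly.snd hp)
    (NPC.Poly.fst hq))) (NPC.Poly.and (NPC.Poly.not (padj hL (NPC.Poly.fst hp) (NPC.Poly.fst hq)))
      (NPC.Poly.not (padj hL (NPC.Poly.snd hp) (NPC.Poly.snd hq))))

theorem pntb {L : α → List (List ℕ)} {e : α → ℕ × ℕ} (hL : NPC.Poly L) (he : NPC.Poly e) :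
    NPC.Poly (fun a => ntb (L a) (e a)) := by
  unfold ntb
  exact NPC.Poly.any (p := fun a q => impb (L a) (e a) q) (ppairs (UPoly.length hL))
    (pimpb (hL.comp (NPC.Poly.fst NPC.Poly.id)) (he.comp (NPC.Poly.fst NPC.Poly.id)) (NPC.Poly.snd NPC.Poly.id))

theorem pirr {S : α → List (ℕ × ℕ)} (hS : NPC.Poly S) : NPC.Poly (fun a => irr (S a)) := by
  unfold irr
  exact NPC.Poly.all (p := fun _ e => !(decide (e.1 = e.2))) hS
    (NPC.Poly.not (NPC.Poly.decide_eq (NPC.Poly.fst (NPC.Poly.snd NPC.Poly.id)) (NPC.Poly.snd (NPC.Poly.snd NPC.Poly.id))))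

theorem pmem {e : α → ℕ × ℕ} {D : α → List (ℕ × ℕ)} (he : NPC.Poly e) (hD : NPC.Poly D) :
    NPC.Poly (fun a => decide (e a ∈ D a)) :=
  (NPC.Poly.decide_mem he hD).congr fun a => by congr

theorem pcomp2 {β γ δ : Type} [TEnc β] [TEnc γ] [TEnc δ] {F : β → γ → δ}
    (hF : NPC.Poly (fun p : β × γ => F p.1 p.2)) {f : α → β} {g : α → γ} (hf : NPC.Poly f)
    (hg : NPC.Poly g) : NPC.Poly (fun a => F (f a) (g a)) :=
  NPC.Poly.comp (g := fun p : β × γ => F p.1 p.2) hF (NPC.Poly.pair hf hg)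

theorem pclose (hC : StPClose) {L : α → List (List ℕ)} {S : α → List (ℕ × ℕ)} (hL : NPC.Poly L)
    (hS : NPC.Poly S) : NPC.Poly (fun a => close (L a) (S a)) :=
  pcomp2 (F := close) hC hL hS

theorem pstepD (hC : StPClose) {L : α → List (List ℕ)} {D : α → List (ℕ × ℕ)} {e : α → ℕ × ℕ}
    (hL : NPC.Poly L) (hD : NPC.Poly D) (he : NPC.Poly e) : NPC.Poly (fun a => stepD (L a) (D a) (e a)) := by
  unfold stepD
  have h1 : NPC.Poly (fun a => close (L a) (e a :: D a)) := pclose hC hL (NPC.Poly.cons he hD)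
  have h2 : NPC.Poly (fun a => close (L a) (((e a).2, (e a).1) :: D a)) :=
    pclose hC hL (NPC.Poly.cons (NPC.Poly.pair (NPC.Poly.snd he) (NPC.Poly.fst he)) hD)
  exact NPC.Poly.ite (NPC.Poly.decide_bool (pntb hL he)) (NPC.Poly.ite (NPC.Poly.decide_bool (pirr h1)) h1
    (NPC.Poly.ite (NPC.Poly.decide_bool (pirr h2)) h2 hD)) hD

theorem sz_sublist {β : Type} [TEnc β] {l l' : List β} (h : l.Sublist l') : sz l ≤ sz l' := by
  induction h with
  | slnil => exact le_rfl
  | cons a _ ih => simp; omega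
  | cons_cons a _ ih => simp; omega

theorem close_sublist (L : List (List ℕ)) (S : List (ℕ × ℕ)) (h : pairs L.length ≠ []) :
    (close L S).Sublist (pairs L.length) := by
  unfold close
  obtain ⟨m, hm⟩ : ∃ m, (pairs L.length).length = m + 1 :=
    ⟨(pairs L.length).length - 1, by have := List.length_pos_iff.2 h; omega⟩
  rw [hm, Function.iterate_succ_apply']
  unfold rnd
  exact List.filter_sublist

theorem fold_sublist (L : List (List ℕ)) : ∀ l : List (ℕ × ℕ), (l ≠ [] → pairs L.length ≠ []) →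
    (l.foldr (fun e D => stepD L D e) []).Sublist (pairs L.length) := by
  intro l
  induction l with
  | nil => intro _; exact List.nil_sublist _
  | cons e l ih =>
    intro h
    have hp : pairs L.length ≠ [] := h (by simp)
    have ih' := ih (fun _ => hp)
    rw [List.foldr_cons]
    unfold stepD
    split_ifs
    · exact close_sublist _ _ hp
    · exact close_sublist _ _ hp
    · exact ih'
    · exact ih'

theorem pfinD (hC : StPClose) : NPC.Poly (fun L : List (List ℕ) => finD L) := by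
  unfold finD
  obtain ⟨q, hq⟩ := (ppairs (α := List (List ℕ)) (UPoly.length NPC.Poly.id)).sz_le
  refine NPC.Poly.foldr (F := fun L e D => stepD L D e) (ppairs (UPoly.length NPC.Poly.id))
    (NPC.Poly.const []) (pstepD hC (NPC.Poly.fst NPC.Poly.id) (NPC.Poly.snd (NPC.Poly.snd NPC.Poly.id))
      (NPC.Poly.fst (NPC.Poly.snd NPC.Poly.id))) q ?_
  intro L k hk
  refine (sz_sublist (fold_sublist L _ ?_)).trans (hq L)
  intro h h'
  rw [h'] at h
  simp at h

theorem pkey {n : α → ℕ} {D : α → List (ℕ × ℕ)} {v : α → ℕ} (hn : UPoly n) (hD : NPC.Poly D)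
    (hv : NPC.Poly v) : NPC.Poly (fun a => key (n a) (D a) (v a)) := by
  unfold key
  exact NPC.Poly.length (NPC.Poly.filter (p := fun a u => decide ((u, v a) ∈ D a)) hn.range
    (pmem (NPC.Poly.pair (NPC.Poly.snd NPC.Poly.id) (hv.comp (NPC.Poly.fst NPC.Poly.id)))
      (hD.comp (NPC.Poly.fst NPC.Poly.id))))

theorem ppos {n : α → ℕ} {D : α → List (ℕ × ℕ)} {v : α → ℕ} (hn : UPoly n) (hD : NPC.Poly D)
    (hv : NPC.Poly v) : NPC.Poly (fun a => pos (n a) (D a) (v a)) := by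
  unfold pos
  have hn' : UPoly (fun p : α × ℕ => n p.1) := hn.comp (NPC.Poly.fst NPC.Poly.id)
  have hD' : NPC.Poly (fun p : α × ℕ => D p.1) := hD.comp (NPC.Poly.fst NPC.Poly.id)
  have hv' : NPC.Poly (fun p : α × ℕ => v p.1) := hv.comp (NPC.Poly.fst NPC.Poly.id)
  have hu : NPC.Poly (fun p : α × ℕ => p.2) := NPC.Poly.snd NPC.Poly.id
  have k1 := pkey hn' hD' hu
  have k2 := pkey hn' hD' hv'
  exact NPC.Poly.length (NPC.Poly.filter (p := fun a u => decide (key (n a) (D a) u < key (n a) (D a) (v a)) ||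
    (decide (key (n a) (D a) u = key (n a) (D a) (v a)) && decide (u < v a))) hn.range
      (NPC.Poly.or (NPC.Poly.decide_lt k1 k2) (NPC.Poly.and (NPC.Poly.decide_eq k1 k2) (NPC.Poly.decide_lt hu hv'))))

theorem patp {n : α → ℕ} {D : α → List (ℕ × ℕ)} {i : α → ℕ} (hn : UPoly n) (hD : NPC.Poly D)
    (hi : NPC.Poly i) : NPC.Poly (fun a => atp (n a) (D a) (i a)) := by
  unfold atp
  have h : NPC.Poly (fun a => (List.range (n a)).filter (fun v => decide (pos (n a) (D a) v = i a))) :=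
    NPC.Poly.filter (p := fun a v => decide (pos (n a) (D a) v = i a)) hn.range
      (NPC.Poly.decide_eq (ppos (hn.comp (NPC.Poly.fst NPC.Poly.id)) (hD.comp (NPC.Poly.fst NPC.Poly.id))
        (NPC.Poly.snd NPC.Poly.id)) (hi.comp (NPC.Poly.fst NPC.Poly.id)))
  exact (NPC.Poly.head?_getD h 0).congr fun a => by rw [List.headD_eq_head?_getD]

theorem prelab {L : α → List (List ℕ)} {D : α → List (ℕ × ℕ)} (hL : NPC.Poly L) (hD : NPC.Poly D) :
    NPC.Poly (fun a => relab (L a) (D a)) := by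
  unfold relab
  refine NPC.Poly.map (F := fun a i => (List.range (L a).length).filter
    (fun j => adjb (L a) (atp (L a).length (D a) i) (atp (L a).length (D a) j)))
    (UPoly.length hL).range ?_
  have hL1 : NPC.Poly (fun p : α × ℕ => L p.1) := hL.comp (NPC.Poly.fst NPC.Poly.id)
  refine NPC.Poly.filter (p := fun (p : α × ℕ) j => adjb (L p.1) (atp (L p.1).length (D p.1) p.2)
    (atp (L p.1).length (D p.1) j)) (UPoly.length hL1).range ?_
  have hL2 : NPC.Poly (fun p : (α × ℕ) × ℕ => L p.1.1) := hL1.comp (NPC.Poly.fst NPC.Poly.id)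
  have hD2 : NPC.Poly (fun p : (α × ℕ) × ℕ => D p.1.1) := hD.comp (NPC.Poly.fst (NPC.Poly.fst NPC.Poly.id))
  exact padj hL2 (patp (UPoly.length hL2) hD2 (NPC.Poly.snd (NPC.Poly.fst NPC.Poly.id)))
    (patp (UPoly.length hL2) hD2 (NPC.Poly.snd NPC.Poly.id))

/-- JOB PFIN -/
theorem stPFin : StPFin := fun hC => prelab NPC.Poly.id (pfinD hC)

end Pool.Agent.K7.H89.SD
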